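import Pool.Agent.Helper19.HV.StC
import Pool.Agent.Helper91.PL.A3

/-!
# Project HV, module RHO
-/

set_option autoImplicit false

open scoped TensorProduct

namespace Pool.Agent.Helper19.HV

noncomputable section

open PL

section rho

variable {F : Type} [Field F]

/-- one family of residues -/
private def rhoD (a : F) (κ : ∀ j : ℕ, W (RatFunc F) (j + 1) →ₗ[ℚ] W F j)
    (hR : ∀ (q : ℕ), ∀ α ∈ R (q + 2) (RatFunc F), spec a α ∈ R (q + 2) F) :
    ∀ (k j : ℕ), Γ (RatFunc F) k (j + 1) →ₗ[ℚ] Γ F k j
  | 0, _ => 0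
  | 1, j => κ (j + 1)
  | (q + 2), j => TensorProduct.map
      (Submodule.mapQ (R (q + 2) (RatFunc F)) (R (q + 2) F) (spec a) (hR q)) (κ j)

private theorem rhoD_tm (a : F) (κ : ∀ j : ℕ, W (RatFunc F) (j + 1) →ₗ[ℚ] W F j)
    (hR : ∀ (q : ℕ), ∀ α ∈ R (q + 2) (RatFunc F), spec a α ∈ R (q + 2) F) (q j : ℕ)
    (x : P1 (RatFunc F)) (l : W (RatFunc F) (j + 1)) :
    rhoD a κ hR (q + 2) j (tm q (j + 1) x l) = tm q j (val a x) (κ j l) := by
  change (TensorProduct.map (Submodule.mapQ (R (q + 2) (RatFunc F)) (R (q + 2) F) (spec a) (hR q))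
    (κ j)) (sym (q + 2) x ⊗ₜ[ℚ] l) = sym (q + 2) (val a x) ⊗ₜ[ℚ] κ j l
  rw [TensorProduct.map_tmul]
  congr 1
  change (R (q + 2) F).mkQ (spec a (Finsupp.single x 1)) = (R (q + 2) F).mkQ _
  congr 1
  exact Finsupp.mapDomain_single

private theorem fin_top {M N : Type} [AddCommGroup M] [Module ℚ M] [AddCommGroup N] [Module ℚ N]
    (f : F → (M →ₗ[ℚ] N)) : ∃ S : Submodule ℚ M, ∀ w, w ∈ S ↔ {a | f a w ≠ 0}.Finite := by
  refine ⟨{ carrier := {w | {a | f a w ≠ 0}.Finite}
            zero_mem' := by simp
            add_mem' := ?_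
            smul_mem' := ?_ }, fun w => Iff.rfl⟩
  · intro v w hv hw
    refine (hv.union hw).subset ?_
    intro a ha
    by_contra h
    rw [Set.mem_union, not_or] at h
    have h1 : f a v = 0 := not_not.mp h.1
    have h2 : f a w = 0 := not_not.mp h.2
    exact ha (by rw [map_add, h1, h2, add_zero])
  · intro c w hw
    refine hw.subset ?_
    intro a ha h
    exact ha (by rw [map_smul, h, smul_zero])

private theorem W_mem {G : Type} [Field G] (j : ℕ) (S : Submodule ℚ (W G j))
    (h : ∀ v, pr G j v ∈ S) (w : W G j) : w ∈ S := by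
  have h0 : S.mkQ = 0 := by
    apply wext
    intro v
    rw [LinearMap.zero_apply, Submodule.mkQ_apply, Submodule.Quotient.mk_eq_zero]
    exact h v
  rw [← Submodule.ker_mkQ S, h0, LinearMap.ker_zero]
  exact Submodule.mem_top

private theorem G_mem {G : Type} [Field G] (q j : ℕ) (S : Submodule ℚ (Γ G (q + 2) j))
    (h : ∀ x v, tm q j x (pr G j v) ∈ S) (w : Γ G (q + 2) j) : w ∈ S := by
  have h0 : S.mkQ = 0 := by
    apply gext
    intro x l
    have h1 : (S.mkQ ∘ₗ tmL q j x) = 0 := by
      apply wext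
      intro v
      rw [LinearMap.zero_apply, LinearMap.comp_apply, Submodule.mkQ_apply,
        Submodule.Quotient.mk_eq_zero]
      exact h x v
    exact LinearMap.congr_fun h1 l
  rw [← Submodule.ker_mkQ S, h0, LinearMap.ker_zero]
  exact Submodule.mem_top

end rho

theorem mRHO : sKAP → sRHO := by
  intro hK F _ cV lc od hs hR
  choose l hl using fun a : F => exists_lc (F := F) a
  let o : F → (V (RatFunc F) →ₗ[ℚ] ℚ) := fun a => (Finsupp.lapply a).comp od
  choose κ hκ using fun (a : F) (j : ℕ) => hK (RatFunc F) F (o a) (l a) j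
  have ho : ∀ (a : F) (u : RatFunc F) (c : F), UnitAt a u c → o a (lg u) = 0 := by
    intro a u c hu
    by_contra h
    have h1 := hs.val a (some u) h
    rcases h1 with h1 | h1
    · rw [hu.1] at h1
      exact hu.2 (Option.some_injective _ h1)
    · rw [hu.1] at h1
      exact Option.some_ne_none _ h1
  have hoE : ∀ a : F, o a (lg (RatFunc.X - RatFunc.C a)) = 1 := by
    intro a
    change od (E a) a = 1
    rw [hs.od_E, Finsupp.single_eq_same]
  refine ⟨fun a => rhoD a (κ a) (fun q => hR q a), ?_, ?_⟩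
  · intro a
    constructor
    · intro j u c hu
      change κ a (j + 1) _ = _
      rw [(hκ a (j + 1)).2 _ _ (fun i => ho a _ _ (hu i)), hoE, one_smul]
      congr 1
      funext i
      exact hl a _ _ (hu i).1 (hu i).2
    · intro j u c hu
      exact (hκ a (j + 1)).1 _ (fun i => ho a _ _ (hu i))
    · intro q j x u c hu
      rw [rhoD_tm, (hκ a j).2 _ _ (fun i => ho a _ _ (hu i)), hoE, one_smul]
      congr 2
      funext i
      exact hl a _ _ (hu i).1 (hu i).2
    · intro q j x u c hu
      rw [rhoD_tm, (hκ a j).1 _ (fun i => ho a _ _ (hu i))]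
      exact TensorProduct.tmul_zero _ _
  · have key : ∀ (j : ℕ) (v : Fin (j + 1) → V (RatFunc F)),
        {a | κ a j (pr (RatFunc F) (j + 1) v) ≠ 0}.Finite := by
      intro j v
      refine Set.Finite.subset (Set.finite_iUnion fun i => (od (v i)).support.finite_toSet) ?_
      intro a ha
      by_contra h
      rw [Set.mem_iUnion, not_exists] at h
      apply ha
      apply (hκ a j).1
      intro i
      have h1 := h i
      rw [Finset.mem_coe, Finsupp.notMem_support_iff] at h1
      exact h1
    intro k j w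
    obtain ⟨S, hS⟩ := fin_top (fun a => rhoD a (κ a) (fun q => hR q a) k j)
    have hw : w ∈ S := by
      rcases k with _ | _ | q
      · have hx : w = 0 := rfl
        rw [hx]
        exact S.zero_mem
      · refine W_mem (j + 2) S (fun v => ?_) w
        exact (hS _).mpr (key (j + 1) v)
      · refine G_mem q (j + 1) S (fun x v => ?_) w
        refine (hS _).mpr ((key j v).subset ?_)
        intro a ha h
        apply ha
        rw [rhoD_tm, h]
        exact TensorProduct.tmul_zero _ _
    exact (hS w).mp hw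

end

end Pool.Agent.Helper19.HV
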