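import Pool.Agent.Helper19.HV.StC

/-!
# Project HV, module ALT
-/

set_option autoImplicit false
set_option linter.unusedSimpArgs false

namespace Pool.Agent.Helper19.HV

noncomputable section

section alt

variable {U N : Type} [AddCommGroup U] [Module ℚ U] [AddCommGroup N] [Module ℚ N]

private theorem neg_of {f : U → U → N} (h0 : ∀ a, f a a = 0)
    (h1 : ∀ a b c, f (a + b) c = f a c + f b c) (h2 : ∀ a b c, f a (b + c) = f a b + f a c)
    (a b : U) : f a b = - f b a := by
  have h := h0 (a + b)
  rw [h1, h2, h2, h0, h0, zero_add, add_zero] at h
  exact eq_neg_of_add_eq_zero_left h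

private theorem zero4 (B : U →ₗ[ℚ] U →ₗ[ℚ] U →ₗ[ℚ] U →ₗ[ℚ] N) (h : Al4 B) (v : Fin 4 → U)
    (i j : Fin 4) (hv : v i = v j) (hij : i ≠ j) : B (v 0) (v 1) (v 2) (v 3) = 0 := by
  obtain ⟨h1, h2, h3⟩ := h
  have s23 : ∀ a b c d, B a b c d = - B a c b d := fun a b c d =>
    neg_of (f := fun b c => B a b c d) (fun b => h2 a b d) (fun x y z => by simp)
      (fun x y z => by simp) b c
  have s34 : ∀ a b c d, B a b c d = - B a b d c := fun a b c d =>
    neg_of (f := fun c d => B a b c d) (fun c => h3 a b c) (fun x y z => by simp)
      (fun x y z => by simp) c d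
  have z01 : v 0 = v 1 → B (v 0) (v 1) (v 2) (v 3) = 0 := fun e => by rw [e]; exact h1 _ _ _
  have z12 : v 1 = v 2 → B (v 0) (v 1) (v 2) (v 3) = 0 := fun e => by rw [e]; exact h2 _ _ _
  have z23 : v 2 = v 3 → B (v 0) (v 1) (v 2) (v 3) = 0 := fun e => by rw [e]; exact h3 _ _ _
  have z02 : v 0 = v 2 → B (v 0) (v 1) (v 2) (v 3) = 0 := fun e => by
    rw [e, s23, h1, neg_zero]
  have z13 : v 1 = v 3 → B (v 0) (v 1) (v 2) (v 3) = 0 := fun e => by
    rw [e, s34, h2, neg_zero]
  have z03 : v 0 = v 3 → B (v 0) (v 1) (v 2) (v 3) = 0 := fun e => by
    rw [e, s34, s23, h1, neg_zero, neg_zero]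
  fin_cases i <;> fin_cases j
  · exact absurd rfl hij
  · exact z01 hv
  · exact z02 hv
  · exact z03 hv
  · exact z01 hv.symm
  · exact absurd rfl hij
  · exact z12 hv
  · exact z13 hv
  · exact z02 hv.symm
  · exact z12 hv.symm
  · exact absurd rfl hij
  · exact z23 hv
  · exact z03 hv.symm
  · exact z13 hv.symm
  · exact z23 hv.symm
  · exact absurd rfl hij

end alt

theorem mALT : sALT := by
  intro U N _ _ _ _
  refine ⟨?_, ?_, ?_, ?_, ?_, ?_⟩
  · intro l
    refine ⟨{ toFun := fun v => l (v 0)
              map_update_add' := ?_
              map_update_smul' := ?_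
              map_eq_zero_of_eq' := ?_ }, fun v => rfl⟩
    · intro inst m i x y
      obtain rfl : inst = instDecidableEqFin _ := Subsingleton.elim _ _
      fin_cases i
      simp
    · intro inst m i c x
      obtain rfl : inst = instDecidableEqFin _ := Subsingleton.elim _ _
      fin_cases i
      simp
    · intro v i j _ hij
      exact absurd (Subsingleton.elim i j) hij
  · intro A
    refine ⟨{ toFun := fun v => A ![v]
              map_add' := ?_
              map_smul' := ?_ }, fun v => rfl⟩
    · intro x y
      have h := A.map_update_add ![(0 : U)] 0 x y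
      have e : ∀ z : U, Function.update ![(0 : U)] 0 z = ![z] := by
        intro z
        funext i
        fin_cases i
        rfl
      rw [e, e, e] at h
      exact h
    · intro c x
      have h := A.map_update_smul ![(0 : U)] 0 c x
      have e : ∀ z : U, Function.update ![(0 : U)] 0 z = ![z] := by
        intro z
        funext i
        fin_cases i
        rfl
      rw [e, e] at h
      exact h
  · intro B hB
    refine ⟨{ toFun := fun v => B (v 0) (v 1)
              map_update_add' := ?_
              map_update_smul' := ?_
              map_eq_zero_of_eq' := ?_ }, fun v => rfl⟩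
    · intro inst m i x y
      obtain rfl : inst = instDecidableEqFin _ := Subsingleton.elim _ _
      fin_cases i <;> simp [Function.update_apply]
    · intro inst m i c x
      obtain rfl : inst = instDecidableEqFin _ := Subsingleton.elim _ _
      fin_cases i <;> simp [Function.update_apply]
    · intro v i j hv hij
      have e : v 0 = v 1 := by
        fin_cases i <;> fin_cases j
        · exact absurd rfl hij
        · exact hv
        · exact hv.symm
        · exact absurd rfl hij
      change B (v 0) (v 1) = 0
      rw [e]
      exact hB _
  · intro A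
    have e0 : ∀ b z : U, Function.update ![(0 : U), b] 0 z = ![z, b] := by
      intro b z
      funext i
      fin_cases i <;> rfl
    have e1 : ∀ a z : U, Function.update ![a, (0 : U)] 1 z = ![a, z] := by
      intro b z
      funext i
      fin_cases i <;> rfl
    obtain ⟨B, hB⟩ := mk2 (fun a b : U => A ![a, b])
      (fun b => ⟨fun x y => by
          have h := A.map_update_add ![(0 : U), b] 0 x y
          rw [e0, e0, e0] at h
          exact h, fun c x => by
          have h := A.map_update_smul ![(0 : U), b] 0 c x
          rw [e0, e0] at h
          exact h⟩)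
      (fun a => ⟨fun x y => by
          have h := A.map_update_add ![a, (0 : U)] 1 x y
          rw [e1, e1, e1] at h
          exact h, fun c x => by
          have h := A.map_update_smul ![a, (0 : U)] 1 c x
          rw [e1, e1] at h
          exact h⟩)
    refine ⟨B, fun v => ?_, hB⟩
    rw [hB]
    exact A.map_eq_zero_of_eq _ (i := 0) (j := 1) rfl (by decide)
  · intro B hB
    refine ⟨{ toFun := fun v => B (v 0) (v 1) (v 2) (v 3)
              map_update_add' := ?_
              map_update_smul' := ?_
              map_eq_zero_of_eq' := ?_ }, fun v => rfl⟩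
    · intro inst m i x y
      obtain rfl : inst = instDecidableEqFin _ := Subsingleton.elim _ _
      fin_cases i <;> simp [Function.update_apply]
    · intro inst m i c x
      obtain rfl : inst = instDecidableEqFin _ := Subsingleton.elim _ _
      fin_cases i <;> simp [Function.update_apply]
    · intro v i j hv hij
      exact zero4 B hB v i j hv hij
  · intro A
    have e0 : ∀ b c d z : U, Function.update ![(0 : U), b, c, d] 0 z = ![z, b, c, d] := by
      intro b c d z
      funext i
      fin_cases i <;> rfl
    have e1 : ∀ a c d z : U, Function.update ![a, (0 : U), c, d] 1 z = ![a, z, c, d] := by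
      intro b c d z
      funext i
      fin_cases i <;> rfl
    have e2 : ∀ a b d z : U, Function.update ![a, b, (0 : U), d] 2 z = ![a, b, z, d] := by
      intro b c d z
      funext i
      fin_cases i <;> rfl
    have e3 : ∀ a b c z : U, Function.update ![a, b, c, (0 : U)] 3 z = ![a, b, c, z] := by
      intro b c d z
      funext i
      fin_cases i <;> rfl
    obtain ⟨B, hB⟩ := mk4 (fun a b c d : U => A ![a, b, c, d])
      (fun b c d => ⟨fun x y => by
          have h := A.map_update_add ![(0 : U), b, c, d] 0 x y
          rw [e0, e0, e0] at h
          exact h, fun r x => by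
          have h := A.map_update_smul ![(0 : U), b, c, d] 0 r x
          rw [e0, e0] at h
          exact h⟩)
      (fun a c d => ⟨fun x y => by
          have h := A.map_update_add ![a, (0 : U), c, d] 1 x y
          rw [e1, e1, e1] at h
          exact h, fun r x => by
          have h := A.map_update_smul ![a, (0 : U), c, d] 1 r x
          rw [e1, e1] at h
          exact h⟩)
      (fun a b d => ⟨fun x y => by
          have h := A.map_update_add ![a, b, (0 : U), d] 2 x y
          rw [e2, e2, e2] at h
          exact h, fun r x => by
          have h := A.map_update_smul ![a, b, (0 : U), d] 2 r x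
          rw [e2, e2] at h
          exact h⟩)
      (fun a b c => ⟨fun x y => by
          have h := A.map_update_add ![a, b, c, (0 : U)] 3 x y
          rw [e3, e3, e3] at h
          exact h, fun r x => by
          have h := A.map_update_smul ![a, b, c, (0 : U)] 3 r x
          rw [e3, e3] at h
          exact h⟩)
    refine ⟨B, ⟨fun v w z => ?_, fun v w z => ?_, fun v w z => ?_⟩, hB⟩
    · rw [hB]
      exact A.map_eq_zero_of_eq _ (i := 0) (j := 1) rfl (by decide)
    · rw [hB]
      exact A.map_eq_zero_of_eq _ (i := 1) (j := 2) rfl (by decide)
    · rw [hB]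
      exact A.map_eq_zero_of_eq _ (i := 2) (j := 3) rfl (by decide)

end

end Pool.Agent.Helper19.HV
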